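import Mathlib
import Pool.Agent.Helper33.ZN.Final
import Pool.Agent.Helper47.Sn.Degree

/-!
`MP_6ade60_al`: the least number `Z n` of irreducible characters of the symmetric group on `n`
letters whose zero sets together cover all the non-identity elements tends to infinity.

The proof combines the degree formula for the symmetric groups
(`Pool/Agent/Helper47/Sn/Degree.lean`) with an arithmetic argument
(`Pool/Agent/Helper33/ZN/`): a covering family forces `n!` to divide the product of its degrees.
-/

set_option autoImplicit false

namespace Pool.Agent.Results.MP_6ade60_al.ZTendsToInfinity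

open CategoryTheory

/-- The set of irreducible complex characters of the symmetric group on `n` letters: the
characters of its simple finite-dimensional complex representations. -/
def Irr (n : ℕ) : Set (Equiv.Perm (Fin n) → ℂ) :=
  {χ | ∃ V : FDRep ℂ (Equiv.Perm (Fin n)), Simple V ∧ V.character = χ}

/-- There are `m` irreducible characters of the symmetric group on `n` letters whose product
vanishes at every `σ ≠ 1`. -/
def IsCovering (n m : ℕ) : Prop :=
  ∃ χ : Fin m → (Equiv.Perm (Fin n) → ℂ), (∀ i, χ i ∈ Irr n) ∧
    ∀ σ : Equiv.Perm (Fin n), σ ≠ 1 → ∏ i, χ i σ = 0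

/-- `Z n` is the least `m` with `IsCovering n m`, and `⊤` if there is no such `m`. -/
noncomputable def Z (n : ℕ) : ℕ∞ :=
  sInf {m : ℕ∞ | ∃ k : ℕ, m = k ∧ IsCovering n k}

theorem degreeFormula : Helper33.ZN.DegreeFormula :=
  fun n k hk V _ => Helper47.Sn.degree_formula n k hk V

/-- For every positive integer `N` there is a positive integer `M` such that `Z n > N` for all
`n > M`. -/
theorem result : ∀ N : ℕ, 0 < N → ∃ M : ℕ, 0 < M ∧ ∀ n : ℕ, M < n → (N : ℕ∞) < Z n := by
  intro N _
  choose f hf using Helper33.ZN.main degreeFormula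
  refine ⟨(Finset.range (N + 1)).sup f + 1, Nat.succ_pos _, fun n hn => ?_⟩
  have h1 : ((N + 1 : ℕ) : ℕ∞) ≤ Z n := by
    refine le_sInf ?_
    rintro m ⟨k, rfl, hk⟩
    rw [Nat.cast_le]
    by_contra hcon
    have hk2 : k ∈ Finset.range (N + 1) := Finset.mem_range.2 (by omega)
    have h2 : f k ≤ (Finset.range (N + 1)).sup f := Finset.le_sup hk2
    exact hf k n (by omega) hk
  refine lt_of_lt_of_le ?_ h1
  rw [Nat.cast_lt]
  exact Nat.lt_succ_self N

end Pool.Agent.Results.MP_6ade60_al.ZTendsToInfinity
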